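import Pool.Agent.MP2d204e.Spec

/-!
Bounds on sums of some Laplacian eigenvalues of threshold graphs and on the Laplacian energy.
-/

namespace Pool.Agent.MP2d204e

open Finset SimpleGraph Matrix

variable {n : ℕ}

/-- number of edges of the threshold graph with code `s` -/
def edg (s : Fin n → Bool) : ℕ := ∑ l : Fin n, if s l then l.val else 0

theorem edges_thr (s : Fin n → Bool) : (thrGraph s).edgeFinset.card = edg s := by
  have h := (thrGraph s).sum_degrees_eq_twice_card_edges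
  have h1 : ∀ i, (thrGraph s).degree i =
      (∑ u : Fin n, if u < i then (if s i then 1 else 0) else 0) +
      ∑ u : Fin n, if i < u then (if s u then 1 else 0) else 0 := by
    intro i
    have h0 := SimpleGraph.degree_eq_sum_if_adj (G := thrGraph s) (R := ℕ) i
    rw [Nat.cast_id] at h0
    rw [h0, ← Finset.sum_add_distrib]
    apply Finset.sum_congr rfl
    intro u _
    rcases lt_trichotomy u i with h | h | h
    · have hadj : (thrGraph s).Adj i u ↔ s i = true := by
        rw [thr_adj, max_eq_left h.le]; exact ⟨fun h => h.2, fun h' => ⟨h.ne', h'⟩⟩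
      by_cases hs : s i = true <;> simp [h, not_lt.2 h.le, hadj, hs]
    · subst h
      simp
    · have hadj : (thrGraph s).Adj i u ↔ s u = true := by
        rw [thr_adj, max_eq_right h.le]; exact ⟨fun h => h.2, fun h' => ⟨h.ne, h'⟩⟩
      by_cases hs : s u = true <;> simp [h, not_lt.2 h.le, hadj, hs]
  have h2 : ∑ i : Fin n, (∑ u : Fin n, if i < u then (if s u then 1 else 0) else 0) =
      ∑ i : Fin n, (∑ u : Fin n, if u < i then (if s i then 1 else 0) else 0) := Finset.sum_comm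
  have h3 : ∀ i : Fin n, (∑ u : Fin n, if u < i then (if s i then 1 else 0) else 0) =
      if s i then i.val else 0 := by
    intro i
    by_cases hs : s i = true
    · simp only [hs, if_true]
      rw [Finset.sum_boole]
      have : (univ.filter fun u : Fin n => u < i) = Finset.Iio i := by
        ext u; simp
      rw [this, Fin.card_Iio]; rfl
    · simp [hs]
  rw [Finset.sum_congr rfl (fun i _ => h1 i), Finset.sum_add_distrib, h2,
    Finset.sum_congr rfl (fun i _ => h3 i)] at h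
  unfold edg
  omega

theorem sum_lam (s : Fin n → Bool) : ∑ j, lam s j = 2 * (edg s : ℝ) := by
  have hu : IsUnit (vmat n).det := isUnit_iff_ne_zero.2 vmat_det_ne
  have h1 : (thrGraph s).lapMatrix ℝ = vmat n * Matrix.diagonal (lam s) * (vmat n)⁻¹ := by
    rw [← lap_mul_vmat, Matrix.mul_assoc, Matrix.mul_nonsing_inv _ hu, Matrix.mul_one]
  have h2 : ((thrGraph s).lapMatrix ℝ).trace = ∑ j, lam s j := by
    rw [h1, Matrix.trace_mul_comm, ← Matrix.mul_assoc, Matrix.nonsing_inv_mul _ hu, Matrix.one_mul,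
      Matrix.trace_diagonal]
  rw [← h2]
  have h3 : ((thrGraph s).lapMatrix ℝ).trace = ∑ i, ((thrGraph s).degree i : ℝ) := by
    simp [Matrix.trace, SimpleGraph.lapMatrix, SimpleGraph.degMatrix]
  rw [h3, ← edges_thr, ← Nat.cast_sum, (thrGraph s).sum_degrees_eq_twice_card_edges]
  push_cast
  ring

/-- ordered pairs inside a set -/
theorem pairs_sum (S : Finset (Fin n)) :
    ∑ l ∈ S, ∑ j ∈ S, (if j < l then (1 : ℝ) else 0) = (S.card : ℝ) * ((S.card : ℝ) - 1) / 2 := by
  have h1 : ∑ l ∈ S, ∑ j ∈ S, (if j < l then (1 : ℝ) else 0) =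
      ∑ l ∈ S, ∑ j ∈ S, (if l < j then (1 : ℝ) else 0) := Finset.sum_comm
  have h2 : ∑ l ∈ S, ∑ j ∈ S, (if j = l then (1 : ℝ) else 0) = (S.card : ℝ) := by
    rw [Finset.sum_congr rfl (g := fun _ => (1 : ℝ))]
    · simp
    · intro l hl
      rw [Finset.sum_ite_eq' S l, if_pos hl]
  have h3 : ∑ l ∈ S, ∑ j ∈ S, (if j < l then (1 : ℝ) else 0) +
      ∑ l ∈ S, ∑ j ∈ S, (if l < j then (1 : ℝ) else 0) +
      ∑ l ∈ S, ∑ j ∈ S, (if j = l then (1 : ℝ) else 0) = (S.card : ℝ) * (S.card : ℝ) := by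
    rw [← Finset.sum_add_distrib, ← Finset.sum_add_distrib]
    have : ∀ l ∈ S, (∑ j ∈ S, (if j < l then (1 : ℝ) else 0) +
      ∑ j ∈ S, (if l < j then (1 : ℝ) else 0)) +
      ∑ j ∈ S, (if j = l then (1 : ℝ) else 0) = (S.card : ℝ) := by
      intro l _
      rw [← Finset.sum_add_distrib, ← Finset.sum_add_distrib]
      rw [Finset.sum_congr rfl (g := fun _ => (1 : ℝ))]
      · simp
      · intro j _
        rcases lt_trichotomy j l with h | h | h
        · simp [h, not_lt.2 h.le, h.ne]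
        · subst h; simp
        · simp [h, not_lt.2 h.le, h.ne']
    rw [Finset.sum_congr rfl this]
    simp
  linarith

/-- double counting -/
theorem sum_lam_S (s : Fin n → Bool) (S : Finset (Fin n)) (h0 : ∀ j ∈ S, j.val ≠ 0) :
    ∑ j ∈ S, lam s j = ∑ l, if s l then
      ((if l ∈ S then (l.val : ℝ) + 1 else 0) + ∑ j ∈ S, (if j < l then (1 : ℝ) else 0)) else 0 := by
  have h1 : ∑ j ∈ S, lam s j = ∑ j ∈ S, ((if s j then (j.val : ℝ) + 1 else 0) +
      ∑ l : Fin n, if j < l then (if s l then (1 : ℝ) else 0) else 0) := by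
    apply Finset.sum_congr rfl
    intro j hj
    unfold lam
    rw [if_neg (h0 j hj), dom_eq]
  rw [h1, Finset.sum_add_distrib, Finset.sum_comm (s := S)]
  have h2 : ∑ j ∈ S, (if s j then (j.val : ℝ) + 1 else 0) =
      ∑ l : Fin n, if l ∈ S then (if s l then (l.val : ℝ) + 1 else 0) else 0 := by
    rw [Finset.sum_ite_mem, Finset.univ_inter]
  rw [h2, ← Finset.sum_add_distrib]
  apply Finset.sum_congr rfl
  intro l _
  by_cases hs : s l = true
  · simp [hs]
  · simp [hs]

theorem card_below (S : Finset (Fin n)) (l : Fin n) :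
    ∑ j ∈ S, (if j < l then (1 : ℝ) else 0) ≤ l.val := by
  rw [← sum_lt_one l]
  apply Finset.sum_le_sum_of_subset_of_nonneg (Finset.subset_univ _)
  intro i _ _
  split_ifs <;> norm_num

theorem brouwer (s : Fin n → Bool) (S : Finset (Fin n)) (h0 : ∀ j ∈ S, j.val ≠ 0) :
    ∑ j ∈ S, lam s j ≤ (edg s : ℝ) + (S.card : ℝ) * ((S.card : ℝ) + 1) / 2 := by
  rw [sum_lam_S s S h0]
  have h1 : ∀ l ∈ (univ : Finset (Fin n)), (if s l then
      ((if l ∈ S then (l.val : ℝ) + 1 else 0) + ∑ j ∈ S, (if j < l then (1 : ℝ) else 0)) else 0)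
      ≤ (((if s l then l.val else 0 : ℕ) : ℝ)) + (if l ∈ S then (1 + ∑ j ∈ S, (if j < l then (1 : ℝ) else 0)) else 0) := by
    intro l _
    have hc := card_below S l
    have hc0 : 0 ≤ ∑ j ∈ S, (if j < l then (1 : ℝ) else 0) :=
      Finset.sum_nonneg (fun j _ => by split_ifs <;> norm_num)
    by_cases hs : s l = true
    · rw [if_pos hs, if_pos hs]
      by_cases hS : l ∈ S
      · rw [if_pos hS, if_pos hS]; linarith
      · rw [if_neg hS, if_neg hS]; linarith
    · rw [if_neg hs, if_neg hs]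
      by_cases hS : l ∈ S
      · rw [if_pos hS]; push_cast; linarith
      · rw [if_neg hS]; simp
  refine (Finset.sum_le_sum h1).trans ?_
  rw [Finset.sum_add_distrib, ← Nat.cast_sum]
  have h2 : (∑ l : Fin n, if l ∈ S then (1 + ∑ j ∈ S, (if j < l then (1 : ℝ) else 0)) else 0) =
      (S.card : ℝ) * ((S.card : ℝ) + 1) / 2 := by
    rw [Finset.sum_ite_mem, Finset.univ_inter, Finset.sum_add_distrib, pairs_sum]
    simp
    ring
  rw [h2]
  exact le_refl _

theorem brouwer_eq (s : Fin n → Bool) (S : Finset (Fin n)) (h0 : ∀ j ∈ S, j.val ≠ 0)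
    (hS : ∀ j, s j = true → j.val ≠ 0 → j ∈ S) (hS' : ∀ j ∈ S, s j = true) :
    ∑ j ∈ S, lam s j = (edg s : ℝ) + (S.card : ℝ) * ((S.card : ℝ) + 1) / 2 := by
  rw [sum_lam_S s S h0]
  have h1 : ∀ l ∈ (univ : Finset (Fin n)), (if s l then
      ((if l ∈ S then (l.val : ℝ) + 1 else 0) + ∑ j ∈ S, (if j < l then (1 : ℝ) else 0)) else 0)
      = (((if s l then l.val else 0 : ℕ) : ℝ)) + (if l ∈ S then (1 + ∑ j ∈ S, (if j < l then (1 : ℝ) else 0)) else 0) := by
    intro l _
    by_cases hs : s l = true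
    · rw [if_pos hs, if_pos hs]
      by_cases hS2 : l ∈ S
      · rw [if_pos hS2, if_pos hS2]; ring
      · have h3 : l.val = 0 := by
          by_contra h; exact hS2 (hS l hs h)
        have h4 := card_below S l
        have hc0 : 0 ≤ ∑ j ∈ S, (if j < l then (1 : ℝ) else 0) :=
          Finset.sum_nonneg (fun j _ => by split_ifs <;> norm_num)
        rw [h3] at h4 ⊢
        rw [if_neg hS2, if_neg hS2]
        push_cast at h4 ⊢
        linarith
    · have hS2 : l ∉ S := fun h => hs (hS' l h)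
      rw [if_neg hs, if_neg hs, if_neg hS2]; simp
  rw [Finset.sum_congr rfl h1, Finset.sum_add_distrib, ← Nat.cast_sum]
  have h2 : (∑ l : Fin n, if l ∈ S then (1 + ∑ j ∈ S, (if j < l then (1 : ℝ) else 0)) else 0) =
      (S.card : ℝ) * ((S.card : ℝ) + 1) / 2 := by
    rw [Finset.sum_ite_mem, Finset.univ_inter, Finset.sum_add_distrib, pairs_sum]
    simp
    ring
  rw [h2]
  rfl

theorem lam_ge_one (s : Fin n) (t : Fin n → Bool) (hlast : ∀ l : Fin n, l.val + 1 = n → t l = true)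
    (hs : s.val ≠ 0) : 1 ≤ lam t s := by
  unfold lam
  rw [if_neg hs]
  by_cases h : s.val + 1 = n
  · rw [if_pos (hlast s h)]
    have : (0 : ℝ) ≤ dom t s := Nat.cast_nonneg _
    have : (0 : ℝ) ≤ s.val := Nat.cast_nonneg _
    linarith
  · have hn : s.val < n := s.isLt
    have h1 : 1 ≤ dom t s := by
      unfold dom
      rw [Nat.one_le_iff_ne_zero, ← Nat.pos_iff_ne_zero, Finset.card_pos]
      refine ⟨⟨n - 1, by omega⟩, ?_⟩
      rw [Finset.mem_filter]
      refine ⟨Finset.mem_univ _, ?_, ?_⟩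
      · rw [Fin.lt_def]; change s.val < n - 1; omega
      · apply hlast; change n - 1 + 1 = n; omega
    have h2 : (1 : ℝ) ≤ dom t s := by exact_mod_cast h1
    have h3 : (0 : ℝ) ≤ (if t s then (s.val : ℝ) + 1 else 0) := by
      split_ifs
      · positivity
      · exact le_refl _
    linarith

theorem conn_bound (s : Fin n → Bool) (hlast : ∀ l : Fin n, l.val + 1 = n → s l = true)
    (S : Finset (Fin n)) (h0 : ∀ j ∈ S, j.val ≠ 0) (hn : 1 ≤ n) :
    ∑ j ∈ S, lam s j ≤ 2 * (edg s : ℝ) - ((n : ℝ) - 1 - S.card) := by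
  have h1 := sum_lam s
  rw [← Finset.sum_add_sum_compl S] at h1
  have h2 : (n : ℝ) - 1 - S.card ≤ ∑ j ∈ Sᶜ, lam s j := by
    have hz : (⟨0, hn⟩ : Fin n) ∈ Sᶜ := by
      rw [Finset.mem_compl]; intro h; exact h0 _ h rfl
    rw [← Finset.add_sum_erase _ _ hz]
    have h3 : lam s ⟨0, hn⟩ = 0 := by unfold lam; rw [if_pos rfl]
    rw [h3, zero_add]
    have h4 : ∑ j ∈ (Sᶜ).erase ⟨0, hn⟩, (1 : ℝ) ≤ ∑ j ∈ (Sᶜ).erase ⟨0, hn⟩, lam s j := by
      apply Finset.sum_le_sum
      intro j hj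
      rw [Finset.mem_erase] at hj
      apply lam_ge_one j s hlast
      intro h
      apply hj.1
      exact Fin.ext h
    refine le_trans ?_ h4
    rw [Finset.sum_const, Finset.card_erase_of_mem hz, Finset.card_compl, Fintype.card_fin,
      nsmul_eq_mul, mul_one]
    have h5 : S.card ≤ n := by simpa using Finset.card_le_univ S
    have h6 : 1 ≤ n - S.card := by
      have : 0 < (Sᶜ).card := Finset.card_pos.2 ⟨_, hz⟩
      rw [Finset.card_compl, Fintype.card_fin] at this
      omega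
    rw [Nat.cast_sub h6, Nat.cast_sub h5]
    push_cast
    linarith
  linarith

/-- abstract energy -/
noncomputable def en (s : Fin n → Bool) : ℝ := ∑ j, |lam s j - 2 * (edg s : ℝ) / n|

theorem sum_dev (s : Fin n → Bool) (hn : 1 ≤ n) : ∑ j, (lam s j - 2 * (edg s : ℝ) / n) = 0 := by
  rw [Finset.sum_sub_distrib, sum_lam]
  simp
  have : (n : ℝ) ≠ 0 := by positivity
  field_simp
  ring

theorem en_lower (s : Fin n → Bool) (hn : 1 ≤ n) (S : Finset (Fin n)) :
    2 * (∑ j ∈ S, lam s j - S.card * (2 * (edg s : ℝ) / n)) ≤ en s := by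
  have h1 := sum_dev s hn
  unfold en
  rw [← Finset.sum_add_sum_compl S] at h1 ⊢
  have h2 : ∑ j ∈ S, (lam s j - 2 * (edg s : ℝ) / n) ≤ ∑ j ∈ S, |lam s j - 2 * (edg s : ℝ) / n| :=
    Finset.sum_le_sum (fun j _ => le_abs_self _)
  have h3 : -∑ j ∈ Sᶜ, (lam s j - 2 * (edg s : ℝ) / n) ≤ ∑ j ∈ Sᶜ, |lam s j - 2 * (edg s : ℝ) / n| := by
    rw [← Finset.sum_neg_distrib]
    exact Finset.sum_le_sum (fun j _ => neg_le_abs _)
  have h4 : ∑ j ∈ S, (lam s j - 2 * (edg s : ℝ) / n) = ∑ j ∈ S, lam s j - S.card * (2 * (edg s : ℝ) / n) := by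
    rw [Finset.sum_sub_distrib, Finset.sum_const, nsmul_eq_mul]
  rw [← h4]
  linarith

theorem en_upper (s : Fin n → Bool) (hn : 1 ≤ n) :
    ∃ S : Finset (Fin n), (∀ j ∈ S, j.val ≠ 0) ∧
      en s = 2 * (∑ j ∈ S, lam s j - S.card * (2 * (edg s : ℝ) / n)) := by
  classical
  refine ⟨univ.filter fun j => 0 < lam s j - 2 * (edg s : ℝ) / n, ?_, ?_⟩
  · intro j hj h
    rw [Finset.mem_filter] at hj
    have h3 : lam s j = 0 := by unfold lam; rw [if_pos h]
    rw [h3] at hj
    have : 0 ≤ 2 * (edg s : ℝ) / n := by positivity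
    linarith [hj.2]
  · set S := univ.filter fun j => 0 < lam s j - 2 * (edg s : ℝ) / n with hS
    have h1 := sum_dev s hn
    have h4 : ∑ j ∈ S, (lam s j - 2 * (edg s : ℝ) / n) = ∑ j ∈ S, lam s j - S.card * (2 * (edg s : ℝ) / n) := by
      rw [Finset.sum_sub_distrib, Finset.sum_const, nsmul_eq_mul]
    rw [← h4]
    unfold en
    rw [← Finset.sum_add_sum_compl S] at h1 ⊢
    have h2 : ∑ j ∈ S, |lam s j - 2 * (edg s : ℝ) / n| = ∑ j ∈ S, (lam s j - 2 * (edg s : ℝ) / n) := by
      apply Finset.sum_congr rfl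
      intro j hj
      rw [hS, Finset.mem_filter] at hj
      exact abs_of_pos hj.2
    have h3 : ∑ j ∈ Sᶜ, |lam s j - 2 * (edg s : ℝ) / n| = -∑ j ∈ Sᶜ, (lam s j - 2 * (edg s : ℝ) / n) := by
      rw [← Finset.sum_neg_distrib]
      apply Finset.sum_congr rfl
      intro j hj
      rw [Finset.mem_compl, hS, Finset.mem_filter] at hj
      apply abs_of_nonpos
      by_contra h
      exact hj ⟨Finset.mem_univ _, not_le.1 h⟩
    rw [h2, h3]
    linarith

/-- Upper bounds for the energy of a connected threshold graph. -/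
theorem en_bounds (s : Fin n → Bool) (hn : 1 ≤ n) (hlast : ∀ l : Fin n, l.val + 1 = n → s l = true) :
    ∃ k : ℕ, k + 1 ≤ n ∧ (k = 0 → en s ≤ 0) ∧
      en s ≤ 2 * (2 * (edg s : ℝ) - n + k + 1 - 2 * (edg s : ℝ) * k / n) ∧
      en s ≤ 2 * ((edg s : ℝ) + (k : ℝ) * ((k : ℝ) + 1) / 2 - 2 * (edg s : ℝ) * k / n) := by
  obtain ⟨S, h0, hS⟩ := en_upper s hn
  refine ⟨S.card, ?_, ?_, ?_, ?_⟩
  · have hz : (⟨0, hn⟩ : Fin n) ∈ Sᶜ := by
      rw [Finset.mem_compl]; intro h; exact h0 _ h rfl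
    have : 0 < (Sᶜ).card := Finset.card_pos.2 ⟨_, hz⟩
    rw [Finset.card_compl, Fintype.card_fin] at this
    omega
  · intro hk
    rw [Finset.card_eq_zero] at hk
    rw [hS, hk]
    simp
  · have := conn_bound s hlast S h0 hn
    have e : (S.card : ℝ) * (2 * (edg s : ℝ) / n) = 2 * (edg s : ℝ) * S.card / n := by ring
    rw [hS, e]
    linarith
  · have := brouwer s S h0
    have e : (S.card : ℝ) * (2 * (edg s : ℝ) / n) = 2 * (edg s : ℝ) * S.card / n := by ring
    rw [hS, e]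
    linarith

end Pool.Agent.MP2d204e
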