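import Mathlib

/-!
Definitions for MP_2d204e_co: Laplacian energy and threshold graphs.
-/

namespace Pool.Agent.MP2d204e

open Finset SimpleGraph

/-- The graph on `Fin n` obtained from the single vertex `0` by adding the vertices
`1, 2, ..., n-1` in this order, where vertex `k` is added as a dominating vertex (adjacent to all
earlier vertices) if `s k = true` and as an isolated vertex if `s k = false`. -/
def thrGraph {n : ℕ} (s : Fin n → Bool) : SimpleGraph (Fin n) where
  Adj i j := i ≠ j ∧ s (max i j) = true
  symm := ⟨fun i j h => ⟨h.1.symm, by rw [max_comm]; exact h.2⟩⟩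
  loopless := ⟨fun i h => h.1 rfl⟩

/-- Threshold graphs: graphs isomorphic to one built from a single vertex by repeatedly adding an
isolated or a dominating vertex. -/
def IsThreshold {V : Type} (G : SimpleGraph V) : Prop :=
  ∃ (n : ℕ) (s : Fin n → Bool), Nonempty (G ≃g thrGraph s)

open Classical in
/-- The Laplacian energy `∑ i, |lam i - 2m/n|`, where `lam` runs over the eigenvalues of the
Laplacian matrix, `n` is the number of vertices and `m` the number of edges. -/
noncomputable def lapEnergy {V : Type} [Fintype V] (G : SimpleGraph V) : ℝ :=
  ∑ i, |(G.isHermitian_lapMatrix (R := ℝ)).eigenvalues i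
      - 2 * (G.edgeFinset.card : ℝ) / (Fintype.card V : ℝ)|

instance {n : ℕ} (s : Fin n → Bool) : DecidableRel (thrGraph s).Adj := fun i j =>
  inferInstanceAs (Decidable (i ≠ j ∧ s (max i j) = true))

end Pool.Agent.MP2d204e
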