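import Mathlib

/-!
The optimisation over clique numbers.
-/

namespace Pool.Agent.MP2d204e

/-- number of vertices of the pineapple with `m` edges and clique number `k+1` -/
noncomputable def nn (m k : ℕ) : ℝ := (m : ℝ) + 1 - (k : ℝ) * ((k : ℝ) - 1) / 2

/-- half of the Laplacian energy of the pineapple with `m` edges and clique number `k+1` -/
noncomputable def ff (m k : ℕ) : ℝ := (m : ℝ) + (k : ℝ) * ((k : ℝ) + 1) / 2 - 2 * m * k / nn m k

theorem nn_succ (m k : ℕ) : nn m (k + 1) = nn m k - k := by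
  unfold nn; push_cast; ring

theorem nn_mono {m k : ℕ} : nn m (k + 1) ≤ nn m k := by
  rw [nn_succ]; have : (0 : ℝ) ≤ k := Nat.cast_nonneg _; linarith

theorem nn_pos_of_succ {m k : ℕ} (h : 0 < nn m (k + 1)) : 0 < nn m k := lt_of_lt_of_le h nn_mono

theorem ff_step {m k : ℕ} (h : 0 < nn m (k + 1)) :
    ff m (k + 1) - ff m k = (((k : ℝ) + 1) * nn m k * nn m (k + 1)
      - 2 * m * (m + 1 + (k : ℝ) * ((k : ℝ) + 1) / 2)) / (nn m k * nn m (k + 1)) := by
  have h0 := nn_pos_of_succ h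
  unfold ff
  rw [eq_div_iff (by positivity)]
  have e1 : 2 * (m : ℝ) * ((k + 1 : ℕ) : ℝ) / nn m (k + 1) * (nn m k * nn m (k + 1)) =
      2 * m * (k + 1) * nn m k := by
    field_simp
    push_cast
    ring
  have e2 : 2 * (m : ℝ) * k / nn m k * (nn m k * nn m (k + 1)) = 2 * m * k * nn m (k + 1) := by
    field_simp
  have e3 : ((m : ℝ) + ((k + 1 : ℕ) : ℝ) * (((k + 1 : ℕ) : ℝ) + 1) / 2 - 2 * m * ((k + 1 : ℕ) : ℝ) / nn m (k + 1) -
      (m + (k : ℝ) * (k + 1) / 2 - 2 * m * k / nn m k)) * (nn m k * nn m (k + 1)) =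
      (((k : ℝ) + 1)) * (nn m k * nn m (k + 1))
        - 2 * (m : ℝ) * ((k + 1 : ℕ) : ℝ) / nn m (k + 1) * (nn m k * nn m (k + 1))
        + 2 * (m : ℝ) * k / nn m k * (nn m k * nn m (k + 1)) := by
    push_cast; ring
  rw [e3, e1, e2]
  unfold nn
  push_cast
  ring

/-- real form of the stopping condition -/
def Qr (m j : ℕ) : Prop :=
  ((j : ℝ) + 1) * nn m j * nn m (j + 1) ≤ 2 * m * (m + 1 + (j : ℝ) * ((j : ℝ) + 1) / 2)

/-- the stopping condition -/
def Qn (m j : ℕ) : Prop :=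
  (j + 1) * (m + 1 - j.choose 2) * (m + 1 - (j + 1).choose 2) ≤ 2 * m * (m + 1 + (j + 1).choose 2)

theorem cast_choose (k : ℕ) : ((k.choose 2 : ℕ) : ℝ) = (k : ℝ) * ((k : ℝ) - 1) / 2 :=
  Nat.cast_choose_two ℝ k

theorem choose_succ_two (j : ℕ) : (j + 1).choose 2 = j.choose 2 + j := by
  have h := Nat.choose_succ_succ' j 1
  rw [Nat.choose_one_right] at h
  have h2 : (1 + 1 : ℕ) = 2 := rfl
  rw [h2] at h
  omega

theorem nn_pos_iff (m k : ℕ) : 0 < nn m k ↔ k.choose 2 ≤ m := by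
  unfold nn
  rw [← cast_choose]
  constructor
  · intro h
    have : ((k.choose 2 : ℕ) : ℝ) < ((m + 1 : ℕ) : ℝ) := by push_cast; linarith
    have := Nat.cast_lt.1 this
    omega
  · intro h
    have : ((k.choose 2 : ℕ) : ℝ) ≤ (m : ℝ) := by exact_mod_cast h
    linarith

theorem nn_cast {m k : ℕ} (h : k.choose 2 ≤ m) : ((m + 1 - k.choose 2 : ℕ) : ℝ) = nn m k := by
  rw [Nat.cast_sub (by omega)]
  unfold nn
  rw [← cast_choose]
  push_cast
  ring

theorem Qn_iff {m j : ℕ} (h : (j + 1).choose 2 ≤ m) : Qn m j ↔ Qr m j := by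
  have h' : j.choose 2 ≤ m := by rw [choose_succ_two] at h; omega
  unfold Qn Qr
  rw [← nn_cast h, ← nn_cast h', ← @Nat.cast_le ℝ]
  have : (((j + 1).choose 2 : ℕ) : ℝ) = (j : ℝ) * ((j : ℝ) + 1) / 2 := by
    rw [cast_choose]; push_cast; ring
  push_cast
  rw [this]

theorem not_Qn {m j : ℕ} (h : ¬ Qn m j) : (j + 1).choose 2 ≤ m ∧ ¬ Qr m j := by
  have h1 : (j + 1).choose 2 ≤ m := by
    by_contra h2
    apply h
    unfold Qn
    have : m + 1 - (j + 1).choose 2 = 0 := by omega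
    rw [this, mul_zero]
    exact Nat.zero_le _
  exact ⟨h1, fun h3 => h ((Qn_iff h1).2 h3)⟩

theorem Qr_mono {m j : ℕ} (hj : 3 ≤ j) (hm : 16 ≤ m) (hQ : Qr m j) (hpos : 0 < nn m (j + 2)) :
    Qr m (j + 1) := by
  have hj' : (3 : ℝ) ≤ j := by exact_mod_cast hj
  have h1 : 0 < nn m (j + 1) := nn_pos_of_succ hpos
  have h0 : 0 < nn m j := nn_pos_of_succ h1
  have hX : nn m j ≤ ((j : ℝ) + 2) * (2 * j + 1) := by
    by_contra hcon
    rw [not_le] at hcon
    unfold Qr at hQ
    rw [nn_succ] at hQ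
    have hm' : (m : ℝ) = nn m j - 1 + (j : ℝ) * (j - 1) / 2 := by unfold nn; ring
    rw [hm'] at hQ
    generalize nn m j = X at *
    generalize (j : ℝ) = y at *
    -- (y+1) X (X-y) ≤ (2X-2+y²-y)(X+y²)
    have e : 2 * (X - 1 + y * (y - 1) / 2) * (X - 1 + y * (y - 1) / 2 + 1 + y * (y + 1) / 2) =
      (2 * X - 2 + y ^ 2 - y) * (X + y ^ 2) := by ring
    rw [e] at hQ
    have hy2 : 2 * y ^ 2 ≤ X := by nlinarith
    have hX1 : 0 < X := h0
    -- bound RHS
    have hR : (2 * X - 2 + y ^ 2 - y) * (X + y ^ 2) ≤ (2 * X + y ^ 2 - 5) * (X + y ^ 2) := by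
      apply mul_le_mul_of_nonneg_right _ (by positivity)
      linarith
    have hL : 4 * X * (X - y) ≤ (y + 1) * X * (X - y) := by
      apply mul_le_mul_of_nonneg_right _ _
      · nlinarith
      · nlinarith
    -- need: 4X(X-y) > (2X+y²-5)(X+y²)
    have hkey : (2 * X + y ^ 2 - 5) * (X + y ^ 2) < 4 * X * (X - y) := by
      have hX2 : 2 * y ^ 2 + 5 * y + 2 < X := by nlinarith
      have hz : 0 ≤ X - (2 * y ^ 2 + 5 * y + 2) := by linarith
      nlinarith [mul_nonneg hz (sq_nonneg y), mul_nonneg hz hz, mul_nonneg hz (by linarith : (0:ℝ) ≤ y - 3)]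
    linarith
  unfold Qr at hQ ⊢
  have hm0 : (0 : ℝ) ≤ m := Nat.cast_nonneg _
  have e2 : nn m (j + 1 + 1) = nn m j - 2 * j - 1 := by
    rw [nn_succ, nn_succ]; push_cast; ring
  have h3 : ((j : ℝ) + 2) * nn m (j + 1 + 1) ≤ ((j : ℝ) + 1) * nn m j := by
    rw [e2]; nlinarith
  have h4 : ((j : ℝ) + 2) * nn m (j + 1 + 1) * nn m (j + 1) ≤ ((j : ℝ) + 1) * nn m j * nn m (j + 1) :=
    mul_le_mul_of_nonneg_right h3 h1.le
  have h5 : 2 * (m : ℝ) * (m + 1 + (j : ℝ) * ((j : ℝ) + 1) / 2) ≤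
      2 * (m : ℝ) * (m + 1 + ((j : ℝ) + 1) * ((j : ℝ) + 1 + 1) / 2) := by
    apply mul_le_mul_of_nonneg_left _ (by positivity)
    nlinarith
  push_cast
  calc ((j : ℝ) + 1 + 1) * nn m (j + 1) * nn m (j + 1 + 1)
      = ((j : ℝ) + 2) * nn m (j + 1 + 1) * nn m (j + 1) := by ring
    _ ≤ _ := h4
    _ ≤ _ := hQ
    _ ≤ _ := h5

theorem ff_le_of_Qr {m j : ℕ} (hQ : Qr m j) (h : 0 < nn m (j + 1)) : ff m (j + 1) ≤ ff m j := by
  have h0 := nn_pos_of_succ h
  have h1 := ff_step h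
  unfold Qr at hQ
  have h2 : (((j : ℝ) + 1) * nn m j * nn m (j + 1)
      - 2 * m * (m + 1 + (j : ℝ) * ((j : ℝ) + 1) / 2)) / (nn m j * nn m (j + 1)) ≤ 0 :=
    div_nonpos_of_nonpos_of_nonneg (by linarith) (by positivity)
  linarith

theorem ff_ge_of_not_Qr {m j : ℕ} (hQ : ¬ Qr m j) (h : 0 < nn m (j + 1)) : ff m j ≤ ff m (j + 1) := by
  have h0 := nn_pos_of_succ h
  have h1 := ff_step h
  unfold Qr at hQ
  rw [not_le] at hQ
  have h2 : 0 ≤ (((j : ℝ) + 1) * nn m j * nn m (j + 1)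
      - 2 * m * (m + 1 + (j : ℝ) * ((j : ℝ) + 1) / 2)) / (nn m j * nn m (j + 1)) :=
    div_nonneg (by linarith) (by positivity)
  linarith

/-- beyond the stopping index the values do not increase -/
theorem ff_after {m J : ℕ} (hJ : 3 ≤ J) (hm : 16 ≤ m) (hQ : Qn m J) :
    ∀ d, 0 < nn m (J + d) → ff m (J + d) ≤ ff m J ∧ (0 < nn m (J + d + 1) → Qr m (J + d)) := by
  intro d
  induction d with
  | zero =>
    intro h
    refine ⟨le_refl _, fun h1 => ?_⟩
    have h2 : (J + 1).choose 2 ≤ m := (nn_pos_iff m (J + 1)).1 h1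
    exact (Qn_iff h2).1 hQ
  | succ d ih =>
    intro h
    have h1 : 0 < nn m (J + d) := nn_pos_of_succ h
    obtain ⟨h2, h3⟩ := ih h1
    have h4 := h3 h
    refine ⟨(ff_le_of_Qr h4 h).trans h2, fun h5 => ?_⟩
    exact Qr_mono (j := J + d) (by omega) hm h4 h5

/-- up to the stopping index the values do not decrease -/
theorem ff_before {m J : ℕ} (hJ : 3 ≤ J) (hmin : ∀ j, 3 ≤ j → j < J → ¬ Qn m j) :
    ∀ d i, 3 ≤ i → i + d = J → ff m i ≤ ff m J := by
  intro d
  induction d with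
  | zero => intro i _ h; rw [add_zero] at h; rw [h]
  | succ d ih =>
    intro i hi h
    obtain ⟨h1, h2⟩ := not_Qn (hmin i hi (by omega))
    have h3 : 0 < nn m (i + 1) := (nn_pos_iff m (i + 1)).2 h1
    exact (ff_ge_of_not_Qr h2 h3).trans (ih (i + 1) (by omega) (by omega))

theorem ff_small {m : ℕ} (hm : 16 ≤ m) : ff m 1 ≤ ff m 3 ∧ ff m 2 ≤ ff m 3 := by
  have hm' : (16 : ℝ) ≤ m := by exact_mod_cast hm
  have n1 : nn m 1 = m + 1 := by unfold nn; push_cast; ring
  have n2 : nn m 2 = m := by unfold nn; push_cast; ring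
  have n3 : nn m 3 = m - 2 := by unfold nn; push_cast; ring
  have f1 : ff m 1 = m + 1 - 2 * m / (m + 1) := by
    unfold ff; rw [n1]; push_cast; ring
  have f2 : ff m 2 = m + 3 - 4 := by
    unfold ff; rw [n2]; push_cast
    have : (m : ℝ) ≠ 0 := by positivity
    field_simp
    ring
  have f3 : ff m 3 = m + 6 - 6 * m / (m - 2) := by
    unfold ff; rw [n3]; push_cast; ring
  have h13 : ff m 1 ≤ ff m 3 := by
    rw [f1, f3]
    have e1 : 2 * (m : ℝ) / (m + 1) = 2 - 2 / (m + 1) := by field_simp; ring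
    have e2 : 6 * (m : ℝ) / (m - 2) = 6 + 12 / (m - 2) := by
      have : (m : ℝ) - 2 ≠ 0 := by linarith
      field_simp; ring
    rw [e1, e2]
    have a1 : 2 / ((m : ℝ) + 1) ≤ 2 / 17 := by
      apply div_le_div_of_nonneg_left <;> linarith
    have a2 : 12 / ((m : ℝ) - 2) ≤ 12 / 14 := by
      apply div_le_div_of_nonneg_left <;> linarith
    norm_num at a1 a2
    linarith
  refine ⟨h13, ?_⟩
  refine le_trans ?_ h13
  rw [f1, f2]
  have e1 : 2 * (m : ℝ) / (m + 1) = 2 - 2 / (m + 1) := by field_simp; ring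
  rw [e1]
  have : 0 ≤ 2 / ((m : ℝ) + 1) := by positivity
  linarith

/-- optimality for `m ≥ 16` -/
theorem ff_opt_large {m J : ℕ} (hm : 16 ≤ m) (hJ : 3 ≤ J) (hQ : Qn m J)
    (hmin : ∀ j, 3 ≤ j → j < J → ¬ Qn m j) {i : ℕ} (hi : 1 ≤ i) (hpos : 0 < nn m i) :
    ff m i ≤ ff m J := by
  have h3 : ff m 3 ≤ ff m J := ff_before hJ hmin (J - 3) 3 (le_refl _) (by omega)
  obtain ⟨s1, s2⟩ := ff_small hm
  rcases Nat.lt_or_ge i 3 with h | h
  · have : i = 1 ∨ i = 2 := by omega
    rcases this with rfl | rfl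
    · exact s1.trans h3
    · exact s2.trans h3
  · rcases Nat.lt_or_ge i J with h' | h'
    · exact ff_before hJ hmin (J - i) i h (by omega)
    · obtain ⟨d, rfl⟩ := Nat.exists_eq_add_of_le h'
      exact (ff_after hJ hm hQ d hpos).1

/-- optimality for `m ≤ 15` -/
theorem ff_opt_small {m : ℕ} (hm : m ≤ 15) (hm1 : 1 ≤ m) {i : ℕ} (hi : 1 ≤ i) (hpos : 0 < nn m i) :
    ff m i ≤ ff m 1 := by
  have h1 : i.choose 2 ≤ m := (nn_pos_iff m i).1 hpos
  have h2 : i ≤ 6 := by
    by_contra h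
    have : (7 : ℕ).choose 2 ≤ i.choose 2 := Nat.choose_le_choose 2 (by omega)
    norm_num [Nat.choose] at this
    omega
  unfold nn at hpos
  unfold ff nn
  interval_cases i <;> interval_cases m <;> first | (norm_num; done) | (norm_num at hpos)

theorem choose_large {m J : ℕ} (hm : 16 ≤ m) (hJ : 3 ≤ J)
    (hmin : ∀ j, 3 ≤ j → j < J → ¬ Qn m j) : (J + 1).choose 2 ≤ m := by
  rcases Nat.lt_or_ge 3 J with h | h
  · obtain ⟨j, rfl⟩ : ∃ j, J = j + 1 := ⟨J - 1, by omega⟩
    have hj : 3 ≤ j := by omega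
    obtain ⟨h1, h2⟩ := not_Qn (hmin j hj (by omega))
    unfold Qr at h2
    rw [not_le] at h2
    by_contra hc
    rw [not_le] at hc
    have h3 : 0 < nn m (j + 1) := (nn_pos_iff m (j + 1)).2 h1
    have h3' : 1 ≤ nn m (j + 1) := by
      rw [← nn_cast h1]
      have : 1 ≤ m + 1 - (j + 1).choose 2 := by omega
      exact_mod_cast this
    have h4 : nn m (j + 1) ≤ j + 1 := by
      rw [← nn_cast h1]
      have e := choose_succ_two (j + 1)
      have : m + 1 - (j + 1).choose 2 ≤ j + 1 := by omega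
      exact_mod_cast this
    have e1 : nn m j = nn m (j + 1) + j := by rw [nn_succ]; ring
    have hm' : (m : ℝ) = nn m (j + 1) - 1 + (j : ℝ) * (j + 1) / 2 := by
      unfold nn; push_cast; ring
    rw [e1, hm'] at h2
    have hj' : (3 : ℝ) ≤ j := by exact_mod_cast hj
    generalize nn m (j + 1) = Y at *
    generalize (j : ℝ) = y at *
    have b1 : (y + 1) * (Y + y) * Y ≤ (y + 1) * (2 * y + 1) * (y + 1) := by
      apply mul_le_mul _ h4 (by linarith) (by positivity)
      apply mul_le_mul_of_nonneg_left (by linarith) (by linarith)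
    have b2 : y * (y + 1) * (1 + y * (y + 1)) ≤
        2 * (Y - 1 + y * (y + 1) / 2) * (Y - 1 + y * (y + 1) / 2 + 1 + y * (y + 1) / 2) := by
      apply mul_le_mul <;> nlinarith
    have b3 : (y + 1) * (2 * y + 1) * (y + 1) ≤ y * (y + 1) * (1 + y * (y + 1)) := by
      have : (y + 1) * (2 * y + 1) ≤ y * (1 + y * (y + 1)) := by nlinarith [mul_nonneg (by linarith : (0:ℝ) ≤ y - 3) (sq_nonneg y), mul_nonneg (by linarith : (0:ℝ) ≤ y - 3) (by linarith : (0:ℝ) ≤ y - 3)]
      nlinarith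
    linarith
  · have : J = 3 := by omega
    subst this
    have : (4 : ℕ).choose 2 = 6 := by decide
    rw [this]; omega

/-- the value `F(n,j)` -/
noncomputable def FF (m : ℕ) (n : ℝ) (j : ℝ) : ℝ := 2 * m - n + j + 1 - 2 * m * j / n

theorem FF_nn (m k : ℕ) : FF m (nn m k) k = ff m k := by
  unfold FF ff
  have : (m : ℝ) = nn m k - 1 + (k : ℝ) * (k - 1) / 2 := by unfold nn; ring
  linarith

theorem FF_le_self {m k : ℕ} {n : ℝ} (h : 0 < nn m k) (hn : nn m k ≤ n)
    (h2 : 2 * (m : ℝ) * k ≤ n * nn m k) : FF m n k ≤ ff m k := by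
  rw [← FF_nn]
  unfold FF
  have hn0 : 0 < n := lt_of_lt_of_le h hn
  have e : 2 * (m : ℝ) * k / nn m k - 2 * m * k / n = (n - nn m k) * (2 * m * k / (n * nn m k)) := by
    field_simp
  have h3 : 2 * (m : ℝ) * k / (n * nn m k) ≤ 1 := by
    rw [div_le_one (by positivity)]; exact h2
  have h4 : (n - nn m k) * (2 * m * k / (n * nn m k)) ≤ (n - nn m k) * 1 :=
    mul_le_mul_of_nonneg_left h3 (by linarith)
  linarith

theorem FF_le_prev {m q : ℕ} {t : ℝ} (ht : t < nn m q) (hpos : 0 < nn m q)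
    (h2 : (t + 1) * (nn m q - t) * nn m q ≤ 2 * m * (nn m q + q * t)) :
    FF m (nn m q - t) ((q : ℝ) + 1) ≤ ff m q := by
  rw [← FF_nn]
  unfold FF
  have hn0 : 0 < nn m q - t := by linarith
  have e : 2 * (m : ℝ) * ((q : ℝ) + 1) / (nn m q - t) - 2 * m * q / nn m q =
      2 * m * (nn m q + q * t) / ((nn m q - t) * nn m q) := by
    rw [div_sub_div _ _ hn0.ne' hpos.ne']
    congr 1
    ring
  have h3 : t + 1 ≤ 2 * m * (nn m q + q * t) / ((nn m q - t) * nn m q) := by
    rw [le_div_iff₀ (by positivity)]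
    linarith
  linarith

/-- the key local comparison: a non-perfect intermediate vertex number is never better -/
theorem FF_local {m q : ℕ} {t : ℝ} (hq : 2 ≤ q) (ht1 : 1 ≤ t) (htq : t + 1 ≤ q) (ht : t < nn m q)
    (hm : 1 ≤ m) :
    FF m (nn m q - t) ((q : ℝ) + 1) ≤ ff m q ∨
    (0 < nn m (q + 1) ∧ FF m (nn m q - t) ((q : ℝ) + 1) ≤ ff m (q + 1)) := by
  have hm' : (1 : ℝ) ≤ m := by exact_mod_cast hm
  have hpos : 0 < nn m q := by linarith
  have hq' : (2 : ℝ) ≤ q := by exact_mod_cast hq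
  by_cases h : 2 * (m : ℝ) * ((q : ℝ) + 1) ≤ (nn m q - t) * nn m (q + 1)
  · right
    have hn0 : 0 < nn m q - t := by linarith
    have h1 : 0 < nn m (q + 1) := by
      by_contra hc
      rw [not_lt] at hc
      have : (nn m q - t) * nn m (q + 1) ≤ 0 := mul_nonpos_of_nonneg_of_nonpos hn0.le hc
      have : 0 < 2 * (m : ℝ) * ((q : ℝ) + 1) := by positivity
      linarith
    refine ⟨h1, ?_⟩
    have := FF_le_self (m := m) (k := q + 1) (n := nn m q - t) h1 (by rw [nn_succ]; linarith)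
      (by push_cast; exact h)
    push_cast at this
    exact this
  · left
    rw [not_le] at h
    apply FF_le_prev ht hpos
    by_contra hc
    rw [not_le] at hc
    have e2m : 2 * (m : ℝ) = q ^ 2 - q + 2 * nn m q - 2 := by unfold nn; ring
    rw [nn_succ, e2m] at h
    rw [e2m] at hc
    generalize nn m q = P at *
    generalize (q : ℝ) = y at *
    have h1 : 0 ≤ (t - 1) * ((y ^ 2 - y + 2 * P - 2) * (y + 1) - (P - t) * (P - y)) :=
      mul_nonneg (by linarith) (by linarith)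
    have h3 : 0 < P * y * (y - t + 2) + (y ^ 2 * t + y * ((y - t) ^ 2 - 1) - 2 * (y - t) - 2) := by
      have a1 : 0 < P * y * (y - t + 2) := by
        apply mul_pos (mul_pos hpos (by linarith)) (by linarith)
      have a2 : 0 ≤ y ^ 2 * t + y * ((y - t) ^ 2 - 1) - 2 * (y - t) - 2 := by
        have b1 : y ^ 2 * 1 ≤ y ^ 2 * t := mul_le_mul_of_nonneg_left ht1 (sq_nonneg y)
        have b2 : 0 ≤ y * ((y - t) ^ 2 - 1) := by
          apply mul_nonneg (by linarith)
          nlinarith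
        nlinarith
      linarith
    nlinarith

/-- upper bound -/
theorem upper_main {m n k : ℕ} {E : ℝ} (hm : 1 ≤ m) (hk : k + 1 ≤ n) (hn : n ≤ m + 1)
    (h0 : k = 0 → E ≤ 0)
    (h1 : E ≤ 2 * (2 * (m : ℝ) - n + k + 1 - 2 * (m : ℝ) * k / n))
    (h2 : E ≤ 2 * ((m : ℝ) + (k : ℝ) * ((k : ℝ) + 1) / 2 - 2 * (m : ℝ) * k / n)) :
    ∃ j, 1 ≤ j ∧ 0 < nn m j ∧ E ≤ 2 * ff m j := by
  have hm' : (1 : ℝ) ≤ m := by exact_mod_cast hm
  have hn' : (n : ℝ) ≤ m + 1 := by exact_mod_cast hn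
  have hn1 : (1 : ℝ) ≤ n := by
    have : 1 ≤ n := by omega
    exact_mod_cast this
  have hn0 : (0 : ℝ) < n := by linarith
  rcases Nat.eq_zero_or_pos k with hk0 | hk0
  · refine ⟨1, le_refl _, ?_, ?_⟩
    · unfold nn; push_cast; linarith
    · have := h0 hk0
      have n1 : nn m 1 = m + 1 := by unfold nn; push_cast; ring
      have f1 : ff m 1 = m + 1 - 2 * m / (m + 1) := by
        unfold ff; rw [n1]; push_cast; ring
      have : 2 * (m : ℝ) / (m + 1) ≤ 2 := by
        rw [div_le_iff₀ (by linarith)]; linarith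
      rw [f1]
      linarith
  · rcases lt_or_ge (n : ℝ) (nn m k) with h | h
    · refine ⟨k, hk0, by linarith, h2.trans ?_⟩
      unfold ff
      have : 2 * (m : ℝ) * k / nn m k ≤ 2 * m * k / n :=
        div_le_div_of_nonneg_left (by positivity) hn0 h.le
      linarith
    · -- the least `J ≥ 1` with `nn m J ≤ n`
      have hex : ∃ j, 1 ≤ j ∧ nn m j ≤ n := ⟨k, hk0, h⟩
      classical
      have hJ := Nat.find_spec hex
      have hJmin := fun j => @Nat.find_min _ _ hex j
      have hJk : Nat.find hex ≤ k := Nat.find_min' hex ⟨hk0, h⟩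
      generalize Nat.find hex = J at *
      have hJk' : (J : ℝ) ≤ k := by exact_mod_cast hJk
      have hFJ : E ≤ 2 * FF m n J := by
        refine h1.trans ?_
        unfold FF
        have hn2m : (n : ℝ) ≤ 2 * m := by linarith
        have e : 2 * (m : ℝ) * k / n - 2 * m * J / n = (k - J) * (2 * m / n) := by ring
        have : ((k : ℝ) - J) * 1 ≤ (k - J) * (2 * m / n) := by
          apply mul_le_mul_of_nonneg_left _ (by linarith)
          rw [le_div_iff₀ hn0]; linarith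
        linarith
      rcases Nat.lt_or_ge 1 J with hJ1 | hJ1
      · obtain ⟨q, rfl⟩ : ∃ q, J = q + 1 := ⟨J - 1, by omega⟩
        have hq1 : 1 ≤ q := by omega
        have hnq : (n : ℝ) < nn m q := by
          by_contra hc
          rw [not_lt] at hc
          exact hJmin q (by omega) ⟨hq1, hc⟩
        -- nn m q is an integer
        have hqm : q.choose 2 ≤ m := (nn_pos_iff m q).1 (by linarith)
        have hcast := nn_cast hqm
        have hlt : n < m + 1 - q.choose 2 := by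
          rw [← hcast] at hnq; exact_mod_cast hnq
        obtain ⟨t, ht⟩ : ∃ t : ℕ, m + 1 - q.choose 2 = n + t + 1 := ⟨m + 1 - q.choose 2 - n - 1, by omega⟩
        have ht' : nn m q = n + t + 1 := by
          rw [← hcast, ht]; push_cast; ring
        have hJ2 := hJ.2
        rw [nn_succ, ht'] at hJ2
        have htq : t + 1 ≤ q := by
          have : (t : ℝ) + 1 ≤ q := by linarith
          exact_mod_cast this
        rcases Nat.lt_or_ge (t + 1) q with hlt2 | hge2
        · have hloc := FF_local (m := m) (q := q) (t := (t : ℝ) + 1) (by omega)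
            (by have : (0 : ℝ) ≤ t := Nat.cast_nonneg _; linarith)
            (by have : ((t + 1 + 1 : ℕ) : ℝ) ≤ q := by exact_mod_cast hlt2
                push_cast at this; exact this)
            (by rw [ht']; linarith) hm
          have hnt : nn m q - ((t : ℝ) + 1) = n := by rw [ht']; ring
          rw [hnt] at hloc
          have hcc : ((q + 1 : ℕ) : ℝ) = (q : ℝ) + 1 := by push_cast; ring
          rw [hcc] at hFJ
          rcases hloc with hl | ⟨hp, hl⟩
          · exact ⟨q, hq1, by linarith, hFJ.trans (by linarith)⟩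
          · exact ⟨q + 1, by omega, hp, hFJ.trans (by linarith)⟩
        · have htq2 : t + 1 = q := by omega
          have hnn : nn m (q + 1) = n := by
            rw [nn_succ, ht', ← htq2]; push_cast; ring
          refine ⟨q + 1, by omega, by rw [hnn]; exact hn0, ?_⟩
          rw [← FF_nn, hnn]
          exact hFJ
      · have hJe : J = 1 := by omega
        subst hJe
        have n1 : nn m 1 = m + 1 := by unfold nn; push_cast; ring
        have hn2 : (n : ℝ) = nn m 1 := by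
          have := hJ.2
          rw [n1] at this ⊢
          linarith
        refine ⟨1, le_refl _, by rw [← hn2]; exact hn0, ?_⟩
        rw [← FF_nn, ← hn2]
        exact hFJ

end Pool.Agent.MP2d204e
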