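import Pool.Agent.MP2d204e.Defs

/-!
The Laplacian spectrum of a threshold graph.
-/

namespace Pool.Agent.MP2d204e

open Finset SimpleGraph Matrix

variable {n : ℕ}

/-- number of later dominating vertices -/
def dom (s : Fin n → Bool) (j : Fin n) : ℕ := (univ.filter fun l : Fin n => j < l ∧ s l = true).card

/-- eigenvalues -/
noncomputable def lam (s : Fin n → Bool) (j : Fin n) : ℝ :=
  if j.val = 0 then 0 else (if s j then (j.val : ℝ) + 1 else 0) + dom s j

/-- eigenvector matrix -/
noncomputable def vmat (n : ℕ) : Matrix (Fin n) (Fin n) ℝ := fun i j =>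
  if j.val = 0 then 1 else if i < j then 1 else if i = j then -(j.val : ℝ) else 0

theorem sum_lt_one (j : Fin n) : (∑ i : Fin n, if i < j then (1 : ℝ) else 0) = j.val := by
  rw [Finset.sum_boole]
  congr 1
  have : (univ.filter fun i : Fin n => i < j) = Finset.Iio j := by
    ext i; simp
  rw [this, Fin.card_Iio]

theorem vmat_colsum (j : Fin n) (hj : j.val ≠ 0) : ∑ i, vmat n i j = 0 := by
  have h : ∀ i, vmat n i j = (if i < j then (1 : ℝ) else 0) + (if i = j then -(j.val : ℝ) else 0) := by
    intro i
    unfold vmat
    rw [if_neg hj]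
    by_cases h1 : i < j
    · rw [if_pos h1, if_pos h1, if_neg h1.ne, add_zero]
    · rw [if_neg h1, if_neg h1, zero_add]
  rw [Finset.sum_congr rfl (fun i _ => h i), Finset.sum_add_distrib, sum_lt_one]
  simp

theorem vmat_mul_of_lt {i j k : Fin n} (hj : j < k) :
    vmat n i j * vmat n i k = if j.val = 0 then vmat n i k else vmat n i j := by
  have hk : k.val ≠ 0 := by have := hj; rw [Fin.lt_def] at this; omega
  by_cases h0 : j.val = 0
  · rw [if_pos h0]
    have : vmat n i j = 1 := by unfold vmat; rw [if_pos h0]
    rw [this, one_mul]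
  · rw [if_neg h0]
    by_cases hij : i < j
    · have : vmat n i k = 1 := by
        unfold vmat; rw [if_neg hk, if_pos (hij.trans hj)]
      rw [this, mul_one]
    · by_cases hij2 : i = j
      · have : vmat n i k = 1 := by
          unfold vmat; rw [if_neg hk, if_pos (hij2 ▸ hj)]
        rw [this, mul_one]
      · have : vmat n i j = 0 := by
          unfold vmat; rw [if_neg h0, if_neg hij, if_neg hij2]
        rw [this, zero_mul]

theorem vmat_orth_lt {j k : Fin n} (hj : j < k) : ∑ i, vmat n i j * vmat n i k = 0 := by
  have hk : k.val ≠ 0 := by have := hj; rw [Fin.lt_def] at this; omega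
  rw [Finset.sum_congr rfl (fun i _ => vmat_mul_of_lt hj)]
  by_cases h0 : j.val = 0
  · simp only [if_pos h0]; exact vmat_colsum k hk
  · simp only [if_neg h0]; exact vmat_colsum j h0

theorem vmat_diag_ne (j : Fin n) : vmat n j j ≠ 0 := by
  unfold vmat
  by_cases h0 : j.val = 0
  · rw [if_pos h0]; exact one_ne_zero
  · rw [if_neg h0, if_neg (lt_irrefl _), if_pos rfl]
    simpa using h0

theorem vmat_transpose_mul : (vmat n)ᵀ * vmat n = Matrix.diagonal fun j => ∑ i, vmat n i j * vmat n i j := by
  ext j k
  rw [Matrix.mul_apply]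
  simp only [Matrix.transpose_apply]
  rcases lt_trichotomy j k with h | h | h
  · rw [vmat_orth_lt h, Matrix.diagonal_apply_ne _ h.ne]
  · subst h; rw [Matrix.diagonal_apply_eq]
  · rw [Matrix.diagonal_apply_ne _ h.ne', ← vmat_orth_lt h]
    exact Finset.sum_congr rfl (fun i _ => mul_comm _ _)

theorem vmat_det_ne : (vmat n).det ≠ 0 := by
  intro h
  have h1 : ((vmat n)ᵀ * vmat n).det = 0 := by rw [Matrix.det_mul, h, mul_zero]
  rw [vmat_transpose_mul, Matrix.det_diagonal, Finset.prod_eq_zero_iff] at h1
  obtain ⟨j, -, hj⟩ := h1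
  have h2 : vmat n j j * vmat n j j ≤ ∑ i, vmat n i j * vmat n i j :=
    Finset.single_le_sum (f := fun i => vmat n i j * vmat n i j) (fun i _ => mul_self_nonneg _) (Finset.mem_univ j)
  have h3 : 0 < vmat n j j * vmat n j j := mul_self_pos.2 (vmat_diag_ne j)
  linarith

theorem thr_adj (s : Fin n → Bool) (i u : Fin n) :
    (thrGraph s).Adj i u ↔ i ≠ u ∧ s (max i u) = true := Iff.rfl

/-- Laplacian applied to a vector -/
theorem lap_apply (s : Fin n → Bool) (x : Fin n → ℝ) (i : Fin n) :
    ((thrGraph s).lapMatrix ℝ *ᵥ x) i =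
      (∑ u, if u < i then (if s i then x i - x u else 0) else 0) +
      ∑ u, if i < u then (if s u then x i - x u else 0) else 0 := by
  rw [SimpleGraph.lapMatrix_mulVec_apply, SimpleGraph.degree_eq_sum_if_adj, Finset.sum_mul,
    ← Finset.sum_add_distrib]
  have : ∑ u ∈ (thrGraph s).neighborFinset i, x u = ∑ u, if (thrGraph s).Adj i u then x u else 0 := by
    rw [← Finset.sum_filter]
    apply Finset.sum_congr _ (fun _ _ => rfl)
    ext u; simp
  rw [this, ← Finset.sum_sub_distrib]
  apply Finset.sum_congr rfl
  intro u _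
  rcases lt_trichotomy u i with h | h | h
  · have hadj : (thrGraph s).Adj i u ↔ s i = true := by
      rw [thr_adj, max_eq_left h.le]; exact ⟨fun h => h.2, fun h' => ⟨h.ne', h'⟩⟩
    rw [if_pos h, if_neg (not_lt.2 h.le)]
    by_cases hs : s i = true
    · rw [if_pos (hadj.2 hs), if_pos (hadj.2 hs), if_pos hs]; ring
    · rw [if_neg (fun h => hs (hadj.1 h)), if_neg (fun h => hs (hadj.1 h)), if_neg hs]; ring
  · subst h
    simp
  · have hadj : (thrGraph s).Adj i u ↔ s u = true := by
      rw [thr_adj, max_eq_right h.le]; exact ⟨fun h => h.2, fun h' => ⟨h.ne, h'⟩⟩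
    rw [if_pos h, if_neg (not_lt.2 h.le)]
    by_cases hs : s u = true
    · rw [if_pos (hadj.2 hs), if_pos (hadj.2 hs), if_pos hs]; ring
    · rw [if_neg (fun h => hs (hadj.1 h)), if_neg (fun h => hs (hadj.1 h)), if_neg hs]; ring

theorem dom_eq (s : Fin n → Bool) (j : Fin n) :
    (dom s j : ℝ) = ∑ l : Fin n, if j < l then (if s l then (1 : ℝ) else 0) else 0 := by
  unfold dom
  rw [← Finset.sum_boole]
  apply Finset.sum_congr rfl
  intro l _
  by_cases h : j < l <;> by_cases h2 : s l = true <;> simp [h, h2]

theorem sum_prefix {i j : Fin n} (h : j < i) (hj : j.val ≠ 0) :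
    (∑ u : Fin n, if u < i then vmat n u j else 0) = 0 := by
  refine Eq.trans (Finset.sum_congr rfl ?_) (vmat_colsum j hj)
  intro u _
  by_cases hu : u < i
  · rw [if_pos hu]
  · rw [if_neg hu]
    have h1 : j < u := lt_of_lt_of_le h (not_lt.1 hu)
    unfold vmat
    rw [if_neg hj, if_neg (not_lt.2 h1.le), if_neg h1.ne']

theorem eigen (s : Fin n → Bool) (j i : Fin n) :
    ((thrGraph s).lapMatrix ℝ *ᵥ (fun u => vmat n u j)) i = lam s j * vmat n i j := by
  rw [lap_apply]
  by_cases hj : j.val = 0
  · have hv : ∀ u, vmat n u j = 1 := fun u => by unfold vmat; rw [if_pos hj]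
    simp [hv, lam, hj]
  · have hlam : lam s j = (if s j then (j.val : ℝ) + 1 else 0) + dom s j := by
      unfold lam; rw [if_neg hj]
    rw [hlam]
    rcases lt_trichotomy i j with h | h | h
    · -- i < j
      have hvi : vmat n i j = 1 := by unfold vmat; rw [if_neg hj, if_pos h]
      have h1 : (∑ u, if u < i then (if s i then vmat n i j - vmat n u j else 0) else 0) = 0 := by
        apply Finset.sum_eq_zero
        intro u _
        by_cases hu : u < i
        · have : vmat n u j = 1 := by unfold vmat; rw [if_neg hj, if_pos (hu.trans h)]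
          rw [hvi, this]; simp
        · rw [if_neg hu]
      have h2 : (∑ u, if i < u then (if s u then vmat n i j - vmat n u j else 0) else 0)
          = (∑ u, if u = j then (if s j then (j.val : ℝ) + 1 else 0) else 0)
            + ∑ u, if j < u then (if s u then (1 : ℝ) else 0) else 0 := by
        rw [← Finset.sum_add_distrib]
        apply Finset.sum_congr rfl
        intro u _
        rw [hvi]
        rcases lt_trichotomy u j with hu | hu | hu
        · have : vmat n u j = 1 := by unfold vmat; rw [if_neg hj, if_pos hu]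
          rw [this, if_neg hu.ne, if_neg (not_lt.2 hu.le)]
          simp
        · subst hu
          have : vmat n u u = -(u.val : ℝ) := by
            unfold vmat; rw [if_neg hj, if_neg (lt_irrefl _), if_pos rfl]
          rw [this, if_pos h, if_pos rfl, if_neg (lt_irrefl _)]
          by_cases hs : s u = true
          · rw [if_pos hs, if_pos hs]; ring
          · rw [if_neg hs, if_neg hs]; ring
        · have : vmat n u j = 0 := by
            unfold vmat; rw [if_neg hj, if_neg (not_lt.2 hu.le), if_neg hu.ne']
          rw [this, if_pos (h.trans hu), if_neg hu.ne', if_pos hu]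
          by_cases hs : s u = true
          · rw [if_pos hs, if_pos hs]; ring
          · rw [if_neg hs, if_neg hs]; ring
      rw [h1, h2, hvi, dom_eq, Finset.sum_ite_eq']
      simp
    · subst h
      have hvi : vmat n i i = -(i.val : ℝ) := by
        unfold vmat; rw [if_neg hj, if_neg (lt_irrefl _), if_pos rfl]
      have h1 : (∑ u, if u < i then (if s i then vmat n i i - vmat n u i else 0) else 0)
          = ∑ u, (if u < i then (1:ℝ) else 0) * (if s i then -(i.val : ℝ) - 1 else 0) := by
        apply Finset.sum_congr rfl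
        intro u _
        by_cases hu : u < i
        · have : vmat n u i = 1 := by unfold vmat; rw [if_neg hj, if_pos hu]
          rw [hvi, this, if_pos hu, if_pos hu, one_mul]
        · rw [if_neg hu, if_neg hu, zero_mul]
      have h2 : (∑ u, if i < u then (if s u then vmat n i i - vmat n u i else 0) else 0)
          = ∑ u, (if i < u then (if s u then (1 : ℝ) else 0) else 0) * (-(i.val : ℝ)) := by
        apply Finset.sum_congr rfl
        intro u _
        by_cases hu : i < u
        · have : vmat n u i = 0 := by
            unfold vmat; rw [if_neg hj, if_neg (not_lt.2 hu.le), if_neg hu.ne']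
          rw [hvi, this, if_pos hu, if_pos hu]
          by_cases hs : s u = true
          · rw [if_pos hs, if_pos hs]; ring
          · rw [if_neg hs, if_neg hs]; ring
        · rw [if_neg hu, if_neg hu, zero_mul]
      rw [h1, h2, ← Finset.sum_mul, ← Finset.sum_mul, sum_lt_one, ← dom_eq, hvi]
      by_cases hs : s i = true
      · rw [if_pos hs, if_pos hs]; ring
      · rw [if_neg hs, if_neg hs]; ring
    · -- j < i
      have hvi : vmat n i j = 0 := by
        unfold vmat; rw [if_neg hj, if_neg (not_lt.2 h.le), if_neg h.ne']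
      have h1 : (∑ u, if u < i then (if s i then vmat n i j - vmat n u j else 0) else 0)
          = ∑ u, (if u < i then vmat n u j else 0) * (if s i then -1 else 0) := by
        apply Finset.sum_congr rfl
        intro u _
        rw [hvi]
        by_cases hu : u < i
        · rw [if_pos hu, if_pos hu]
          by_cases hs : s i = true
          · rw [if_pos hs, if_pos hs]; ring
          · rw [if_neg hs, if_neg hs]; ring
        · rw [if_neg hu, if_neg hu, zero_mul]
      have h2 : (∑ u, if i < u then (if s u then vmat n i j - vmat n u j else 0) else 0) = 0 := by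
        apply Finset.sum_eq_zero
        intro u _
        by_cases hu : i < u
        · have h3 := h.trans hu
          have : vmat n u j = 0 := by
            unfold vmat; rw [if_neg hj, if_neg (not_lt.2 h3.le), if_neg h3.ne']
          rw [hvi, this]; simp
        · rw [if_neg hu]
      rw [h1, h2, ← Finset.sum_mul, sum_prefix h hj, hvi]
      ring

theorem lap_mul_vmat (s : Fin n → Bool) :
    (thrGraph s).lapMatrix ℝ * vmat n = vmat n * Matrix.diagonal (lam s) := by
  ext i j
  rw [Matrix.mul_diagonal]
  have := eigen s j i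
  rw [mul_comm] at this
  rw [← this]
  rfl

open Polynomial in
theorem charpoly_thr (s : Fin n → Bool) :
    ((thrGraph s).lapMatrix ℝ).charpoly = ∏ j, (X - C (lam s j)) := by
  have hu : IsUnit (vmat n).det := isUnit_iff_ne_zero.2 vmat_det_ne
  have h1 : (thrGraph s).lapMatrix ℝ = vmat n * Matrix.diagonal (lam s) * (vmat n)⁻¹ := by
    rw [← lap_mul_vmat, Matrix.mul_assoc, Matrix.mul_nonsing_inv _ hu, Matrix.mul_one]
  rw [h1, Matrix.charpoly_mul_comm, ← Matrix.mul_assoc, Matrix.nonsing_inv_mul _ hu, Matrix.one_mul,
    Matrix.charpoly_diagonal]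

open Classical Polynomial in
theorem eigenvalues_sum {V : Type} [Fintype V] (G : SimpleGraph V) (s : Fin n → Bool)
    (e : G ≃g thrGraph s) (f : ℝ → ℝ) :
    ∑ i, f ((G.isHermitian_lapMatrix (R := ℝ)).eigenvalues i) = ∑ j, f (lam s j) := by
  have h1 : (G.lapMatrix ℝ).charpoly = ∏ j, (X - C (lam s j)) := by
    rw [← charpoly_thr s, ← Matrix.charpoly_reindex e.toEquiv]
    congr 1
    ext a b
    simp only [Matrix.reindex_apply, Matrix.submatrix_apply, SimpleGraph.lapMatrix,
      SimpleGraph.degMatrix, Matrix.sub_apply, SimpleGraph.adjMatrix_apply, Matrix.diagonal_apply]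
    have hadj : G.Adj (e.toEquiv.symm a) (e.toEquiv.symm b) ↔ (thrGraph s).Adj a b := by
      rw [← e.map_adj_iff]
      change (thrGraph s).Adj (e.toEquiv (e.toEquiv.symm a)) (e.toEquiv (e.toEquiv.symm b)) ↔ _
      rw [Equiv.apply_symm_apply, Equiv.apply_symm_apply]
    have hdeg : G.degree (e.toEquiv.symm a) = (thrGraph s).degree a := by
      have := e.degree_eq (e.toEquiv.symm a)
      have h3 : e (e.toEquiv.symm a) = a := Equiv.apply_symm_apply e.toEquiv a
      rw [h3] at this
      exact this.symm
    have hab : (e.toEquiv.symm a = e.toEquiv.symm b) ↔ a = b := Equiv.apply_eq_iff_eq _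
    by_cases h : a = b
    · subst h
      simp [hdeg]
    · simp [h, hab, hadj]
  have h2 := (G.isHermitian_lapMatrix (R := ℝ)).roots_charpoly_eq_eigenvalues
  have h3 : (∏ j, (X - C (lam s j))).roots = Multiset.map (lam s) Finset.univ.val := by
    rw [Polynomial.roots_prod]
    · simp
    · simp [Finset.prod_ne_zero_iff, Polynomial.X_sub_C_ne_zero]
  rw [h1, h3] at h2
  have h4 := congrArg (fun M => (Multiset.map f M).sum) h2
  simp only [Multiset.map_map] at h4
  exact h4.symm

end Pool.Agent.MP2d204e
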